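import Mathlib
import Pool.Agent.H3.D6.Main

/-!
# Short linear relations among the coefficients of univalent functions

For every `m ≥ 1`
`α_m^* ≤ -(1592/3125) * (1 - (4717/7783)^(2(m-1)))`, i.e.
`α_m^* ≤ -0.50944 (1 - 0.36732^(m-1))`.
In particular for every `m ≥ 5` some exponent below `-1/2` is admissible.
-/

set_option autoImplicit false

open MeasureTheory Metric Set
open scoped ENNReal Real

namespace Pool.Agent.Results.MP_d6acc2_an.BelowMinusHalf

/-- the class `S` of normalised univalent functions -/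
def ClassS (f : ℂ → ℂ) : Prop :=
  DifferentiableOn ℂ f (ball (0:ℂ) 1) ∧ InjOn f (ball (0:ℂ) 1) ∧ f 0 = 0 ∧ deriv f 0 = 1

/-- Taylor coefficients at `0` -/
noncomputable def taylorCoeff (f : ℂ → ℂ) (n : ℕ) : ℂ := iteratedDeriv n f 0 / (n.factorial : ℂ)

/-- `α` is admissible for `m` -/
def AdmissibleS (m : ℕ) (α : ℝ) : Prop :=
  ∀ f : ℂ → ℂ, ClassS f → ∀ k : ℕ, 1 ≤ k → ∃ K : ℝ, ∀ n : ℕ, 1 ≤ n →
    ∃ c : ℕ → ℂ, c 0 = 1 ∧ (1 / 4 : ℝ) ^ m ≤ ‖c m‖ ∧
      ∀ j ≤ k, ‖∑ i ∈ Finset.range (m + 1), c i * taylorCoeff f (n + j + i)‖ ≤ K * (n : ℝ) ^ α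

/-- `α_m^*`, the infimum of the admissible exponents (in the extended reals) -/
noncomputable def alphaStar (m : ℕ) : EReal :=
  sInf ((fun a : ℝ => (a : EReal)) '' {α : ℝ | AdmissibleS m α})

theorem coeff_sub_const (f : ℂ → ℂ) (w : ℂ) (n : ℕ) (hn : 1 ≤ n) :
    MeanVal.coeff (fun z => f z - w) n = MeanVal.coeff f n := by
  obtain ⟨k, rfl⟩ : ∃ k, n = k + 1 := ⟨n - 1, by omega⟩
  have h : deriv (fun z => f z - w) = deriv f := by
    funext z
    simp
  simp only [MeanVal.coeff, iteratedDeriv_succ', h]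

theorem admissibleS (m : ℕ) (hm : 1 ≤ m) (α : ℝ)
    (hα : -(1592 / 3125) * (1 - (4717 / 7783 : ℝ) ^ (2 * (m - 1))) < α) : AdmissibleS m α := by
  obtain ⟨k, rfl⟩ : ∃ k, m = k + 1 := ⟨m - 1, by omega⟩
  rw [Nat.add_sub_cancel] at hα
  intro f hf j _
  obtain ⟨w, hw⟩ := H3.D6.exists_omitted f hf.1 hf.2.1
  set a : ℂ → ℂ := fun z => f z - w with ha
  have had : DifferentiableOn ℂ a (ball 0 1) := hf.1.sub_const w
  have hai : InjOn a (ball 0 1) := by
    intro x hx y hy hxy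
    apply hf.2.1 hx hy
    simpa [ha] using hxy
  have ha0 : ∀ z ∈ ball (0:ℂ) 1, a z ≠ 0 := fun z hz h => hw z hz (sub_eq_zero.1 h)
  obtain ⟨σ, hσ, hcert⟩ := H3.D6.exists_cert k H3.D6.ww (by unfold H3.D6.ww; norm_num)
    (by unfold H3.D6.ww; norm_num)
  have hV : (1 - H3.D6.ww) * ((2 - H3.D6.ww) / (2 + H3.D6.ww)) ^ (2 * k) =
      1592 / 3125 * (4717 / 7783 : ℝ) ^ (2 * k) := by
    unfold H3.D6.ww
    norm_num
  rw [hV] at hcert
  obtain ⟨K, N₀, hK⟩ := H3.D6.main_bound a had hai ha0 (k + 1) σ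
    (1592 / 3125 * (4717 / 7783 : ℝ) ^ (2 * k)) hσ (by positivity) hcert α
    (by unfold H3.D6.ww; linarith) j
  obtain ⟨K', hK'⟩ := MeanVal.eventually_enough (k + 1) j α f
    ⟨K, N₀, fun n hn hn0 => by
      obtain ⟨c, h0, h1, h2⟩ := hK n hn
      refine ⟨c, h0, le_trans ?_ h1, fun i hi => ?_⟩
      · exact pow_le_one₀ (by norm_num) (by norm_num)
      · have h3 := h2 i hi
        have h4 : ∀ l, MeanVal.coeff a (n + i + l) = MeanVal.coeff f (n + i + l) :=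
          fun l => coeff_sub_const f w _ (by omega)
        simp only [h4] at h3
        exact h3⟩
  exact ⟨K', fun n hn => hK' n (by omega)⟩

/-- **Main theorem**: `α_m^* ≤ -(1592/3125) (1 - (4717/7783)^(2(m-1)))` for every `m ≥ 1`, and for
every `m ≥ 5` some exponent below `-1/2` is admissible. -/
theorem result :
    (∀ m : ℕ, 1 ≤ m →
      alphaStar m ≤ ((-(1592 / 3125) * (1 - (4717 / 7783 : ℝ) ^ (2 * (m - 1))) : ℝ) : EReal)) ∧
    (∀ m : ℕ, 4 < m → ∃ α : ℝ, α < -1 / 2 ∧ AdmissibleS m α) := by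
  constructor
  · intro m hm
    apply le_of_forall_gt
    intro c hc
    obtain ⟨d, hbd, hdc⟩ := EReal.lt_iff_exists_real_btwn.1 hc
    have hbd' := EReal.coe_lt_coe_iff.1 hbd
    exact lt_of_le_of_lt (sInf_le ⟨d, admissibleS m hm d hbd', rfl⟩) hdc
  · intro m hm
    refine ⟨-1 / 2 - 1 / 10000, by norm_num, admissibleS m (by omega) _ ?_⟩
    have h1 : (4717 / 7783 : ℝ) ^ (2 * (m - 1)) ≤ (4717 / 7783 : ℝ) ^ 8 :=
      pow_le_pow_of_le_one (by norm_num) (by norm_num) (by omega)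
    have h2 : (4717 / 7783 : ℝ) ^ 8 < 18206 / 1000000 := by norm_num
    nlinarith

end Pool.Agent.Results.MP_d6acc2_an.BelowMinusHalf
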